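import Pool.Agent.H44.GW2

open Pool.Agent.H44.GW Cardinal

namespace Pool.Agent.Results.MP_34b196_pr.Continuum

/-- If `q < q̃`, the fixed points between them have the cardinality of the continuum. -/
theorem result (X : Type) [Countable X] (μ : X → PMF (X →₀ ℕ))
    (h : qExt μ Set.univ ≠ qLoc μ) :
    Cardinal.mk {s : X → ℝ // s ∈ Fix μ ∧ qExt μ Set.univ ≤ s ∧ s ≤ qLoc μ} =
      Cardinal.continuum := by
  have hle : qExt μ Set.univ ≤ qLoc μ := qExt_le qLoc_fix (by simp)
  obtain ⟨x, hx⟩ := Function.ne_iff.1 h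
  have hlt := lt_of_le_of_ne (hle x) hx
  refine le_antisymm ((mk_subtype_le _).trans ?_) ?_
  · rw [mk_arrow, lift_id, lift_id, mk_real]
    exact (power_le_power_left continuum_ne_zero (mk_le_aleph0 (α := X))).trans
      continuum_power_aleph0.le
  · rw [← mk_Ico_real hlt]
    choose f hf using fun c : Set.Ico (qExt μ Set.univ x) (qLoc μ x) => between x c.2.1 c.2.2
    refine mk_le_of_injective (f := fun c => ⟨f c, (hf c).1, (hf c).2.1, (hf c).2.2.1⟩)
      fun c d hcd => Subtype.ext ?_
    rw [← (hf c).2.2.2, ← (hf d).2.2.2, show f c = f d from congrArg Subtype.val hcd]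

end Pool.Agent.Results.MP_34b196_pr.Continuum
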